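import Pool.Agent.E8helper20.CT3.Stm
import Pool.Agent.Y153.CT.RAM
import Pool.Agent.Y379.CT.Ramc

/-!
# Project CT3: local conditions at the primes not above three (helper23)
-/

set_option autoImplicit false
set_option linter.unusedVariables false

open scoped Classical

namespace Pool.Agent.E8helper23.CT3

open WeierstrassCurve
open Pool.Agent.Y703.CT
open Pool.Agent.E8helper20.CT3
open Pool.Agent.Y692.QS (Ei w nr toC)
open Pool.Agent.Y715.T.Rec (cs)
open Pool.Agent.Y715.T.RecG (Pq)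
open Pool.Agent.Y715.T.Gi Pool.Agent.Y715.T.Nr Pool.Agent.Y715.T.Df Pool.Agent.Y715.T.Ell
open Pool.Agent.Y715.T.Red Pool.Agent.Y715.T.Odd
open Pool.Agent.Y153.CTRAM hiding t_UNR t_RAM
open Pool.Agent.Y379.CT (pow_val_eq_one exp_eq hensel)

lemma three_ne : (3 : Ei) ≠ 0 := by decide

/-- CT3-UNR -/
theorem t_UNR3 : S_UNR3 := by
  intro J _ π e hD i₀ hi u a hT h p _ ι hp hπ R hS τ σ hc hτ
  have hI := iota_sq' hi ι
  have h3 := norm_three_one (p := p) hp
  have hu := u_ne hT (mul_ne_zero three_ne (ne_zero_of hD))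
  have ha : a σ = 0 := by
    refine a_zero hT hu ?_
    apply ι.injective
    show ι (σ u) = ι u
    rw [← hc]
    have hτI : τ (ι i₀) = ι i₀ := hc.fix
    refine fix_of_unit hI hp (z := ι (ev i₀ hi (3 * pD π e))) ?_ ?_ hτ ?_
    · rw [← map_pow, hT.cube]
    · rw [iota_ev, map_mul, norm_mul, map_ofNat, h3, one_mul]
      unfold pD
      rw [map_prod, norm_prod]
      apply Finset.prod_eq_one
      intro j _
      rw [map_pow, norm_pow]
      have h4 := hπ j
      rw [iota_ev] at h4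
      rw [eq_one_of_not_lt hI h4, one_pow]
    · rw [iota_ev]
      exact ev_fix hI hτI _
  refine ⟨ha, ?_⟩
  have h4 := hS τ σ hc
  rw [ha, jj_zero] at h4
  apply tt_mem (p := p)
  rw [← h4]
  exact inert_mem h3 hτ _

/-- CT3-RAM -/
theorem t_RAM3 : S_RAM3 := by
  intro J _ π e hD i₀ hi u a hT h j p _ ι hπ R hS
  have hI := iota_sq' hi ι
  have hu := u_ne hT (mul_ne_zero three_ne (ne_zero_of hD))
  have hπ' := hπ
  rw [iota_ev] at hπ'
  -- the residue characteristic is not three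
  have hp : p ≠ 3 := by
    rintro rfl
    obtain ⟨q, hq⟩ := (hD.pq j).three
    have e1 : π j = 1 + 3 * q := by linear_combination hq
    have h1 : ‖ev (ι i₀) hI (3 * q)‖ < 1 := by
      rw [map_mul]
      rw [mul_comm]
      refine mul_lt (ev_le hI q) ?_
      rw [map_ofNat, norm_three']
      norm_num
    have h2 : ‖ev (ι i₀) hI (π j)‖ = 1 := by
      rw [e1, map_add, map_one, eq_of_lt, norm_one]
      rwa [norm_one]
    rw [h2] at hπ'
    exact lt_irrefl _ hπ'
  have h3 := norm_three_one (p := p) hp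
  have hpr := (hD.pq j).prime
  -- an automorphism of the inertia group which moves the cube root
  have hne : ∃ (τ : Au p) (σ : GK i₀), Cmp ι τ σ ∧ Inert τ ∧ a σ ≠ 0 := by
    by_contra hcon
    push Not at hcon
    have hfix : ∀ τ : Au p, Inert τ → τ (ι i₀) = ι i₀ → τ (ι u) = ι u := by
      intro τ hτ hτI
      obtain ⟨σ, hc⟩ := exists_cmp ι τ hτI
      rw [hc, hT.act σ, hcon τ σ hc hτ, neg_zero, ZMod.val_zero, pow_zero, one_mul]
    obtain ⟨m, hm⟩ := norm_odd hI hp (z := ι u) ((map_ne_zero ι).2 hu) hfix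
    have hn : ‖(ι u) ^ 3‖ = (p : ℝ) ^ (-((e j).val : ℤ)) := by
      rw [← map_pow, hT.cube, iota_ev, map_mul, norm_mul, map_ofNat, h3, one_mul]
      unfold pD
      rw [map_prod, norm_prod, Finset.prod_eq_single j]
      · rw [map_pow, norm_pow, norm_prime hI hp hpr hπ', inv_pow, zpow_neg, zpow_natCast]
      · intro i _ hij
        rw [map_pow, norm_pow]
        have h4 : ¬ ‖ev (ι i₀) hI (π i)‖ < 1 := by
          intro h5
          exact hD.nd i j hij ((dvd_iff hI hpr hπ' _).2 h5)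
        rw [eq_one_of_not_lt hI h4, one_pow]
      · intro h4
        exact absurd (Finset.mem_univ j) h4
    have h5 := three_of hm hn
    have h6 : (e j).val < 3 := ZMod.val_lt _
    have h7 : (e j).val ≠ 0 := by
      intro h8
      exact hD.e0 j ((ZMod.val_eq_zero _).1 h8)
    omega
  obtain ⟨τ₁, σ₁, hc₁, hτ₁, ha₁⟩ := hne
  obtain ⟨hn3, hT3⟩ := exists_T3 hI
  set T3 : Pt (PadicAlgCl p) := Affine.Point.some (-1) ((ι i₀) ^ 2) hn3 with hT3d
  have hjT3 : ∀ c : ZMod 3, jj hI c T3 = T3 - tt _ c := by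
    intro c
    rcases z3 c with rfl | rfl | rfl
    · rw [jj_zero, tt_zero, sub_zero]
    · rw [jj_one, hT3]
    · rw [jj_neg_one, hT3, map_sub, im_tt, hT3, sub_sub, ← tt_add]
      congr 2
  have hlT3 : ∀ τ : Au p, τ (ι i₀) = ι i₀ → pm (lh τ) T3 = T3 := by
    intro τ hτI
    rw [hT3d, pm_some, Affine.Point.some.injEq]
    rw [lh_apply, lh_apply]
    constructor
    · rw [map_neg, map_one]
    · rw [map_pow, hτI]
  -- the correction
  obtain ⟨ε, hε⟩ : ∃ ε : ZMod 3, ε * a σ₁ = h σ₁ := by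
    refine ⟨h σ₁ * a σ₁, ?_⟩
    have : ∀ x y : ZMod 3, y ≠ 0 → x * y * y = x := by decide
    exact this _ _ ha₁
  refine ⟨ε, ?_⟩
  set R' : Pt (PadicAlgCl p) := R + ε.val • T3 with hR'
  have hmem : jj hI (a σ₁) R' - R' ∈ E1 (isE (PadicAlgCl p)) := by
    have h4 := hS τ₁ σ₁ hc₁
    have h5 := jj_mem hI (a σ₁) (inert_mem h3 hτ₁ R)
    rw [jj_sub] at h5
    have e1 : jj hI (a σ₁) R' - R' = -(jj hI (a σ₁) (pm (lh τ₁) R) - jj hI (a σ₁) R) := by
      have e2 : jj hI (a σ₁) (pm (lh τ₁) R) = R + tt _ (h σ₁) := by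
        rw [← h4]
        abel
      rw [e2, hR', jj_add, jj_nsmul, hjT3, smul_sub, nsmul_tt, hε]
      abel
    rw [e1]
    exact neg_mem h5
  have hmem2 : R' - im (isE _) hI R' ∈ E1 (isE (PadicAlgCl p)) := by
    rcases z3 (a σ₁) with h4 | h4 | h4
    · exact absurd h4 ha₁
    · rw [h4, jj_one] at hmem
      rw [← neg_sub]
      exact neg_mem hmem
    · rw [h4, jj_neg_one, im_im] at hmem
      have h5 := im_mem _ hI hmem
      rw [map_sub, map_sub, map_neg, im_im] at h5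
      have e1 : R' - im (isE _) hI R' =
          -im (isE (PadicAlgCl p)) hI R' - (-R' - im (isE _) hI R') - im (isE _) hI R' := by
        abel
      rw [e1]
      exact h5
  obtain ⟨R₁, hR₁, e₁⟩ := surj_E1 (isE (PadicAlgCl p)) h3 hI hmem2
  have hker : (R' - R₁) - im (isE (PadicAlgCl p)) hI (R' - R₁) = 0 := by
    rw [map_sub]
    have e2 : R' - R₁ - (im (isE (PadicAlgCl p)) hI R' - im (isE _) hI R₁) =
        (R' - im (isE (PadicAlgCl p)) hI R') - (R₁ - im (isE _) hI R₁) := by abel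
    rw [e2, e₁, sub_self]
  obtain ⟨c, hc⟩ := ker_tt hI hker
  have hR : R = R₁ + tt _ c - ε.val • T3 := by
    rw [← hc, hR']
    abel
  intro τ σ hcτ
  have hτI : τ (ι i₀) = ι i₀ := hcτ.fix
  have h4 := hS τ σ hcτ
  rw [hR, map_sub, map_add, pm_tt, map_nsmul, hlT3 τ hτI, jj_sub, jj_add, jj_tt, jj_nsmul, hjT3,
    smul_sub, nsmul_tt] at h4
  have h5 : jj hI (a σ) (pm (lh τ) R₁) - R₁ = tt _ (h σ - ε * a σ) := by
    rw [tt_sub, ← h4]
    abel
  have h6 : jj hI (a σ) (pm (lh τ) R₁) - R₁ ∈ E1 (isE (PadicAlgCl p)) :=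
    sub_mem (jj_mem hI _ (lh_mem hR₁)) hR₁
  rw [h5] at h6
  exact sub_eq_zero.1 (tt_mem h6)



/-- CT3-RAMC -/
theorem t_RAMC3 : S_RAMC3 := by
  intro J _ π e hD i₀ hi u a hT v h hK j hj p _ ι hπ
  have hI := iota_sq' hi ι
  have hu := u_ne hT (mul_ne_zero three_ne (ne_zero_of hD))
  have hπ' := hπ
  rw [iota_ev] at hπ'
  -- the residue characteristic is not three
  have hp : p ≠ 3 := by
    rintro rfl
    obtain ⟨q, hq⟩ := (hD.pq j).three
    have e1 : π j = 1 + 3 * q := by linear_combination hq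
    have h1 : ‖ev (ι i₀) hI (3 * q)‖ < 1 := by
      rw [map_mul]
      rw [mul_comm]
      refine mul_lt (ev_le hI q) ?_
      rw [map_ofNat, norm_three']
      norm_num
    have h2 : ‖ev (ι i₀) hI (π j)‖ = 1 := by
      rw [e1, map_add, map_one, eq_of_lt, norm_one]
      rwa [norm_one]
    rw [h2] at hπ'
    exact lt_irrefl _ hπ'
  have hpr := (hD.pq j).prime
  have hnd : ∀ i, i ≠ j → ¬ π j ∣ π i := fun i hij => hD.nd i j hij
  -- the local cube
  set M₁ : Ei := ∏ i ∈ Finset.univ.erase j, π i ^ (e i * (v i - v j)).val with hM₁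
  set M : Ei := 3 ^ (-v j).val * M₁ with hM
  have hndp : ∀ i ∈ Finset.univ.erase j, ¬ π j ∣ π i ^ (e i * (v i - v j)).val := fun i hi' h1 =>
    hnd i (Finset.ne_of_mem_erase hi') (hpr.dvd_of_dvd_pow h1)
  have hMd₁ : ¬ π j ∣ M₁ := by
    intro h1
    obtain ⟨i, hi', h2⟩ := (hpr.dvd_finsetProd_iff _).1 h1
    exact hndp i hi' h2
  have h3d : ¬ π j ∣ 3 := (hD.pq j).norm
  have h3p : ¬ π j ∣ 3 ^ (-v j).val := fun h1 => h3d (hpr.dvd_of_dvd_pow h1)
  have hMd : ¬ π j ∣ M := by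
    intro h1
    rcases hpr.dvd_or_dvd h1 with h2 | h2
    · exact h3p h2
    · exact hMd₁ h2
  have hcs : cs (π j) M = 0 := by
    rw [hM, Pool.Agent.Y715.T.RecG.cs_mul hpr (hD.pq j).norm h3p hMd₁,
      Pool.Agent.Y715.T.RecG.cs_pow hpr (hD.pq j).norm h3d, ZMod.natCast_zmod_val, hM₁,
      Pool.Agent.Y715.T.RecG.cs_prod hpr (hD.pq j).norm _ _ hndp]
    rw [← Finset.add_sum_erase _ _ (Finset.mem_univ j)] at hj
    rw [sub_self, mul_zero, zero_add] at hj
    have e1 : ∑ i ∈ Finset.univ.erase j, cs (π j) (π i ^ (e i * (v i - v j)).val) =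
        cs (π j) 3 * v j := by
      rw [← hj]
      refine Finset.sum_congr rfl fun i hi' => ?_
      rw [Pool.Agent.Y715.T.RecG.cs_pow hpr (hD.pq j).norm (hnd i (Finset.ne_of_mem_erase hi')),
        ZMod.natCast_zmod_val]
      ring
    rw [e1]
    ring
  obtain ⟨x, hx⟩ := (Pool.Agent.Y715.T.RecG.cs_zero_iff hpr (hD.pq j).norm hMd).1 hcs
  have hxd : ¬ π j ∣ x := by
    intro h1
    apply hMd
    have h2 := dvd_add hx (dvd_pow h1 three_ne_zero)
    rwa [sub_add_cancel] at h2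
  obtain ⟨s, hs, hs1, hsf⟩ := hensel hI hp (c := ev (ι i₀) hI M) (y := ev (ι i₀) hI x)
    (fun τ hτ => ev_fix hI hτ M) (fun τ hτ => ev_fix hI hτ x)
    (eq_one_of_not_lt hI ((dvd_iff hI hpr hπ' x).not.1 hxd)) (by
      have h1 := (dvd_iff hI hpr hπ' _).1 hx
      rw [map_sub, map_pow, ← norm_neg, neg_sub] at h1
      exact h1)
  -- the identity between the products
  choose k hk using fun i => exp_eq (e i) (v i) (v j)
  have hprod₁ : (∏ i, π i ^ (e i * v i).val) * pD π e ^ (-v j).val =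
      M₁ * (∏ i, π i ^ k i) ^ 3 := by
    have h1 : M₁ = ∏ i, π i ^ (e i * (v i - v j)).val := by
      rw [← Finset.mul_prod_erase _ _ (Finset.mem_univ j), sub_self, mul_zero, ZMod.val_zero,
        pow_zero, one_mul]
    rw [h1]
    unfold pD
    rw [← Finset.prod_pow, ← Finset.prod_pow, ← Finset.prod_mul_distrib,
      ← Finset.prod_mul_distrib]
    refine Finset.prod_congr rfl fun i _ => ?_
    rw [← pow_mul, ← pow_mul, ← pow_add, ← pow_add, hk, mul_comm (k i) 3]
  have hprod : (∏ i, π i ^ (e i * v i).val) * (3 * pD π e) ^ (-v j).val =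
      M * (∏ i, π i ^ k i) ^ 3 := by
    rw [mul_pow, hM]
    linear_combination (3 : Ei) ^ (-v j).val * hprod₁
  -- the cube root
  obtain ⟨b, hb⟩ := IsAlgClosed.exists_pow_nat_eq (ev i₀ hi (∏ i, π i ^ (e i * v i).val)) (n := 3)
    (by norm_num)
  have hb0 : b ≠ 0 := by
    rintro rfl
    have h1 : ev i₀ hi (∏ i, π i ^ (e i * v i).val) = 0 := by rw [← hb]; ring
    have h2 := ev_inj hi h1
    rw [Finset.prod_eq_zero_iff] at h2
    obtain ⟨i, _, h3⟩ := h2
    exact pow_ne_zero _ (hD.pq i).prime.ne_zero h3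
  have hcube : (ι (b * u ^ (-v j).val)) ^ 3 = (s * ev (ι i₀) hI (∏ i, π i ^ k i)) ^ 3 := by
    rw [← map_pow, mul_pow, ← pow_mul, mul_comm _ 3, pow_mul, hb, hT.cube, ← map_pow, ← map_mul,
      hprod, iota_ev, map_mul, mul_pow, hs, map_pow]
  obtain ⟨n, hn⟩ := cube_eq hI hcube
  have hchar : ∀ (τ : Au p) (σ : GK i₀), Cmp ι τ σ → h σ = -(v j * a σ) := by
    intro τ σ hc
    have hτI : τ (ι i₀) = ι i₀ := hc.fix
    have h1 : τ (ι (b * u ^ (-v j).val)) = ι (b * u ^ (-v j).val) := by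
      rw [hn, map_mul, map_mul, map_pow, hτI, hsf τ hτI, ev_fix hI hτI]
    rw [hc] at h1
    have h2 := ι.injective h1
    have h3 : σ (b * u ^ (-v j).val) =
        i₀ ^ ((h σ).val + (-a σ).val * (-v j).val) * (b * u ^ (-v j).val) := by
      rw [map_mul, map_pow, hK b hb σ, hT.act σ, mul_pow, ← pow_mul, pow_add]
      ring
    rw [h3] at h2
    have h4 : i₀ ^ ((h σ).val + (-a σ).val * (-v j).val) = 1 := by
      apply mul_right_cancel₀ (mul_ne_zero hb0 (pow_ne_zero (-v j).val hu))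
      rw [h2, one_mul]
    have h5 := pow_val_eq_one hi _ h4
    push_cast at h5
    rw [ZMod.natCast_zmod_val, ZMod.natCast_zmod_val, ZMod.natCast_zmod_val] at h5
    linear_combination h5
  -- the point
  obtain ⟨hn3, hT3⟩ := exists_T3 hI
  set T3 : Pt (PadicAlgCl p) := Affine.Point.some (-1) ((ι i₀) ^ 2) hn3 with hT3d
  have hjT3 : ∀ c : ZMod 3, jj hI c T3 = T3 - tt _ c := by
    intro c
    rcases z3 c with rfl | rfl | rfl
    · rw [jj_zero, tt_zero, sub_zero]
    · rw [jj_one, hT3]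
    · rw [jj_neg_one, hT3, map_sub, im_tt, hT3, sub_sub, ← tt_add]
      congr 2
  have hlT3 : ∀ τ : Au p, τ (ι i₀) = ι i₀ → pm (lh τ) T3 = T3 := by
    intro τ hτI
    rw [hT3d, pm_some, Affine.Point.some.injEq]
    rw [lh_apply, lh_apply]
    constructor
    · rw [map_neg, map_one]
    · rw [map_pow, hτI]
  refine ⟨(v j).val • T3, fun τ σ hc => ?_⟩
  rw [map_nsmul, hlT3 τ hc.fix, jj_nsmul, hjT3, smul_sub, nsmul_tt, hchar τ σ hc, ← tt_neg]
  abel



end Pool.Agent.E8helper23.CT3
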