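import Pool.Agent.E8helper20.CT3.Stm
import Pool.Agent.Y48.CT.SEL

/-!
# Project CT3: the Selmer group (helper23)
-/

set_option autoImplicit false
set_option linter.unusedSectionVars false
set_option linter.unusedVariables false

open scoped Classical

namespace Pool.Agent.E8helper23.CT3.SEL

open Pool.Agent.Y692.QS (Ei w nr)
open Pool.Agent.Y715.T.Gi Pool.Agent.Y715.T.Nr Pool.Agent.Y715.T.Df
open Pool.Agent.Y715.T.Rec (cs)
open Pool.Agent.Y715.T.RecG
open Pool.Agent.Y715.T.Sel (fac kc_mul kc_one kc_congr kc_pow kc_cube kc_uniq kc_cancel kc_unit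
  kc_exp ex_root root_ne iota_sq iota_ev odd_of not_dvd_of_unr resid_kc exists_emb3)
open Pool.Agent.Y703.CT
open Pool.Agent.E8helper20.CT3
open Pool.Agent.Y48.CT.SEL (not_lam not_assoc_lam p0 pr0 esq prod_form support)

variable {J : Type} [Fintype J] {π : J → Ei} {e : J → ZMod 3}
variable {i₀ : QB} {hi : i₀ ^ 2 + i₀ + 1 = 0}

/-- the primes with `lam` -/
noncomputable def rh (π : J → Ei) : Option J → Ei
  | none => lam
  | some j => π j

lemma rh_prime (hD : Dt π e) (k : Option J) : Prime (rh π k) := by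
  cases k with
  | none => exact prime_lam
  | some j => exact (hD.pq j).prime

lemma rh0 (hD : Dt π e) (k : Option J) : rh π k ≠ 0 := (rh_prime hD k).ne_zero

lemma rh_nd (hD : Dt π e) (k l : Option J) (h : k ≠ l) : ¬ rh π l ∣ rh π k := by
  intro h1
  have h2 := ((rh_prime hD l).dvd_prime_iff_associated (rh_prime hD k)).1 h1
  cases k with
  | none =>
    cases l with
    | none => exact h rfl
    | some j => exact not_assoc_lam (hD.pq j) h2
  | some i =>
    cases l with
    | none => exact not_assoc_lam (hD.pq i) h2.symm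
    | some j => exact hD.nd i j (fun h3 => h (congrArg some h3)) h2.dvd

lemma rp0 (hD : Dt π e) (f : Option J → ℕ) : ∏ k, rh π k ^ f k ≠ 0 :=
  Finset.prod_ne_zero_iff.2 fun k _ => pow_ne_zero _ (rh0 hD k)

lemma not_dvd_prod' (hD : Dt π e) (l : Option J) (x : Option J → ℕ) :
    ¬ rh π l ∣ ∏ k ∈ Finset.univ.erase l, rh π k ^ x k := by
  rw [(rh_prime hD l).dvd_finsetProd_iff]
  rintro ⟨i, hij, hd⟩
  exact rh_nd hD i l (Finset.ne_of_mem_erase hij) ((rh_prime hD l).dvd_of_dvd_pow hd)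

/-- the products with exponents at most two are free of cubes -/
lemma cf_prod' (hD : Dt π e) (f : Option J → ZMod 3) : CF (∏ k, rh π k ^ (f k).val) := by
  refine ⟨rp0 hD _, fun d hd => ?_⟩
  by_contra hu
  have hd0 : d ≠ 0 := by
    rintro rfl
    rw [zero_pow three_ne_zero, zero_dvd_iff] at hd
    exact rp0 hD _ hd
  obtain ⟨ρ, hρi, hρd⟩ := WfDvdMonoid.exists_irreducible_factor hu hd0
  have hρ : Prime ρ := hρi.prime
  have h1 : ρ ^ 3 ∣ ∏ j, rh π j ^ (f j).val := (pow_dvd_pow_of_dvd hρd 3).trans hd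
  have h2 : ρ ∣ ∏ j, rh π j ^ (f j).val := (dvd_pow_self ρ three_ne_zero).trans h1
  rw [hρ.dvd_finsetProd_iff] at h2
  obtain ⟨j, -, hj⟩ := h2
  have h3 : Associated ρ (rh π j) :=
    (hρ.dvd_prime_iff_associated (rh_prime hD j)).1 (hρ.dvd_of_dvd_pow hj)
  have h4 : rh π j ^ 3 ∣ ∏ j, rh π j ^ (f j).val := (pow_dvd_pow_of_dvd h3.symm.dvd 3).trans h1
  rw [← Finset.mul_prod_erase Finset.univ (fun i => rh π i ^ (f i).val) (Finset.mem_univ j)] at h4
  have hlt : (f j).val < 3 := ZMod.val_lt _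
  have e1 : rh π j ^ 3 = rh π j ^ (f j).val * rh π j ^ (3 - (f j).val) := by
    rw [← pow_add]
    congr 1
    omega
  rw [e1] at h4
  have h5 := (mul_dvd_mul_iff_left (pow_ne_zero _ (rh0 hD j))).1 h4
  exact not_dvd_prod' hD j _ ((dvd_pow_self (rh π j) (by omega)).trans h5)

/-- the exponents of `- 3 D` -/
def EE (e : J → ZMod 3) : Option J → ZMod 3
  | none => 2
  | some j => e j

lemma prod_opt (f : Option J → ℕ) :
    ∏ k, rh π k ^ f k = lam ^ f none * ∏ j, π j ^ f (some j) := by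
  rw [Fintype.prod_option]
  rfl

lemma val2 : (2 : ZMod 3).val = 2 := by decide

lemma three_pD : (3 : Ei) * pD π e = -1 * ∏ k, rh π k ^ (EE e k).val := by
  rw [prod_opt]
  unfold pD
  show _ = -1 * (lam ^ (2 : ZMod 3).val * ∏ j, π j ^ (e j).val)
  rw [val2, lam_sq]
  ring

lemma cs_three {ρ : Ei} (h : Pq ρ) : cs ρ lam = 2 * cs ρ 3 := by
  have h1 : (3 : Ei) = -(lam ^ 2) := by rw [lam_sq, neg_neg]
  have h2 : ¬ ρ ∣ lam := not_lam h
  have h3 : ¬ ρ ∣ lam ^ 2 := fun h4 => h2 (h.prime.dvd_of_dvd_pow h4)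
  rw [h1, cs_neg h.prime h.norm h3, cs_pow h.prime h.norm h2]
  have h5 : (2 : ZMod 3) * ((2 : ℕ) * cs ρ lam) = (4 : ZMod 3) * cs ρ lam := by
    push_cast
    ring
  have h6 : (4 : ZMod 3) = 1 := by decide
  rw [h5, h6, one_mul]

/-- **CT3-SEL.** -/
theorem t_SEL3 : S_SEL3 := by
  intro _ hLOC hRAM hUNR J _ π e hD hker i₀ hi u a hTw h hc hm hloc
  have h30 : (3 : Ei) * pD π e ≠ 0 := by
    rw [three_pD]
    exact mul_ne_zero (neg_ne_zero.2 one_ne_zero) (rp0 hD _)
  -- the character `a`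
  have hb : Kc hi (∏ k, rh π k ^ (EE e k).val) (fun σ => -a σ) := by
    refine kc_unit (rp0 hD _) (Or.inr rfl) ?_
    rw [← three_pD]
    exact kc_of hi (root_ne (hi := hi) (z := 3 * pD π e) h30 hTw.cube) hTw.cube hTw.act
  -- the Kummer generator
  obtain ⟨z, hz, hzh⟩ := kum hi h hc hm
  obtain ⟨v₀, g, x, hu, ez⟩ := fac (π := π) z hz.1 (support hD hz hzh
    (fun p _ ι hp3 hpj τ σ hcc hτ => by
      obtain ⟨R, hR⟩ := hloc p ι
      exact (hUNR J π e hD i₀ hi u a hTw h p ι hp3 hpj R hR τ σ hcc hτ).2))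
  rw [ez] at hzh
  obtain ⟨ι₃⟩ := exists_emb3
  obtain ⟨q, hq⟩ := prod_form hD x
  have hq' : ∏ j, π j ^ x j = 1 + 3 * q := by rw [← hq]; ring
  -- the exponents
  set X : Option J → ℕ := fun k => k.elim g x with hX
  have hX0 : X none = g := rfl
  have hX1 : ∀ j, X (some j) = x j := fun j => rfl
  have hx : Kc hi (∏ k, rh π k ^ X k) h := by
    obtain ⟨R, hR⟩ := hloc 3 ι₃
    have hzh' := hzh
    rw [hq'] at hzh'
    have hu1 := hLOC i₀ hi (pD π e) (prod_form hD _) u a hTw h v₀ q g hu hzh'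
      inferInstance ι₃ R hR
    refine kc_unit (rp0 hD _) hu1 ?_
    rw [prod_opt]
    have e1 : v₀ * (lam ^ X none * ∏ j, π j ^ X (some j)) = v₀ * lam ^ g * ∏ j, π j ^ x j := by
      rw [hX0]
      simp only [hX1]
      ring
    rw [e1]
    exact hzh
  set v : J → ZMod 3 := fun j => x j * e j with hv
  have hxv : ∀ j, (x j : ZMod 3) = e j * v j := by
    intro j
    have := esq hD j
    calc (x j : ZMod 3) = x j * (e j * e j) := by rw [this, mul_one]
      _ = _ := by rw [hv]; ring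
  have heq : KerV3 π e (fun j => v j + g) := by
    intro j
    obtain ⟨p, hp, ι, hl⟩ := exists_emb hi (hD.pq j).prime
    have hp3 := odd_of hi ι (hD.pq j).prime hl (not_assoc_lam (hD.pq j))
    obtain ⟨R, hR⟩ := hloc p ι
    obtain ⟨ε, hε⟩ := hRAM J π e hD i₀ hi u a hTw h j p ι hl R hR
    -- the character that is trivial at `π j`
    set n : ℕ := ε.val with hn
    have hn3 : (n : ZMod 3) = ε := ZMod.natCast_zmod_val _
    have hy := kc_mul (rp0 hD X) (pow_ne_zero n (rp0 hD _)) hx (kc_pow (rp0 hD _) hb n)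
    have hy1 : ∀ (τ : Au p) (σ : GK i₀), Cmp ι τ σ → h σ + n * -a σ = 0 := by
      intro τ σ hcc
      rw [hε τ σ hcc, hn3]
      ring
    have ey : (∏ i, rh π i ^ X i) * (∏ i, rh π i ^ (EE e i).val) ^ n =
        ∏ i, rh π i ^ (X i + (EE e i).val * n) := by
      rw [← Finset.prod_pow, ← Finset.prod_mul_distrib]
      refine Finset.prod_congr rfl fun i _ => ?_
      rw [← pow_mul, ← pow_add]
    rw [ey] at hy
    set y : Option J → ZMod 3 := fun i => X i + EE e i * ε with hydef
    have hy2 : Kc hi (∏ i, rh π i ^ (y i).val) (fun σ => h σ + n * -a σ) := by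
      refine kc_exp (rh0 hD) (fun i => ?_) hy
      rw [ZMod.natCast_zmod_val, hydef]
      push_cast
      rw [hn3, ZMod.natCast_zmod_val]
    have hl' : ‖ι (ev i₀ hi (rh π (some j)))‖ < 1 := hl
    have hyj : y (some j) = 0 := by
      have h1 := not_dvd_of_unr (cf_prod' hD y) hy2 hp3 ι (rh_prime hD (some j)) hl'
        (fun τ σ hcc _ => hy1 τ σ hcc)
      by_contra hne
      apply h1
      refine dvd_trans (dvd_pow_self (rh π (some j)) ?_) (Finset.dvd_prod_of_mem
        (fun i => rh π i ^ (y i).val) (Finset.mem_univ (some j)))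
      rwa [Ne, ZMod.val_eq_zero]
    have hεv : ε = -v j := by
      have h1 : (x j : ZMod 3) + e j * ε = 0 := hyj
      have h2 := esq hD j
      rw [hxv j] at h1
      calc ε = (e j * e j) * ε := by rw [h2, one_mul]
        _ = e j * (e j * v j + e j * ε) - (e j * e j) * v j := by ring
        _ = _ := by rw [h1, h2]; ring
    have hyi : ∀ i, y (some i) = e i * (v i - v j) := by
      intro i
      change (x i : ZMod 3) + e i * ε = _
      rw [hxv i, hεv]
      ring
    have hy0 : y none = g - 2 * v j := by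
      change (g : ZMod 3) + 2 * ε = _
      rw [hεv]
      ring
    have e2 : ∏ i, rh π i ^ (y i).val =
        lam ^ (y none).val * ∏ i ∈ Finset.univ.erase j, π i ^ (y (some i)).val := by
      rw [prod_opt, ← Finset.mul_prod_erase Finset.univ (fun i => π i ^ (y (some i)).val)
        (Finset.mem_univ j), hyj, ZMod.val_zero, pow_zero, one_mul]
    rw [e2] at hy2
    have hcube := resid_kc hy2 hp3 ι (hD.pq j).prime hl hy1
    have h9 := (hD.pq j).norm
    have hpj := (hD.pq j).prime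
    have hnl : ¬ π j ∣ lam := not_lam (hD.pq j)
    have hnlp : ¬ π j ∣ lam ^ (y none).val := fun h1 => hnl (hpj.dvd_of_dvd_pow h1)
    have hnd := Pool.Agent.Y48.CT.SEL.not_dvd_prod hD j (fun i => (y (some i)).val)
    have hndm : ¬ π j ∣ lam ^ (y none).val *
        ∏ i ∈ Finset.univ.erase j, π i ^ (y (some i)).val := by
      intro h1
      rcases hpj.dvd_or_dvd h1 with h2 | h2
      · exact hnlp h2
      · exact hnd h2
    have hcs := (cs_zero_iff hpj h9 hndm).2 hcube
    have hnd1 : ∀ i ∈ Finset.univ.erase j, ¬ π j ∣ π i := fun i hij =>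
      hD.nd i j (Finset.ne_of_mem_erase hij)
    rw [cs_mul hpj h9 hnlp hnd, cs_pow hpj h9 hnl, ZMod.natCast_zmod_val, hy0,
      cs_three (hD.pq j),
      cs_prod hpj h9 _ _ (fun i hij h1 => hnd1 i hij (hpj.dvd_of_dvd_pow h1))] at hcs
    have e3 : ∑ i ∈ Finset.univ.erase j, cs (π j) (π i ^ (y (some i)).val) =
        ∑ i, e i * cs (π j) (π i) * ((v i + g) - (v j + g)) := by
      rw [← Finset.add_sum_erase Finset.univ _ (Finset.mem_univ j), sub_self, mul_zero, zero_add]
      refine Finset.sum_congr rfl fun i hij => ?_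
      rw [cs_pow hpj h9 (hnd1 i hij), ZMod.natCast_zmod_val, hyi i]
      ring
    rw [e3] at hcs
    have h4 : (3 : ZMod 3) = 0 := by decide
    linear_combination hcs + (v j * cs (π j) 3 - g * cs (π j) 3) * h4
  have hconst := hker _ heq
  -- conclusion
  refine ⟨g, fun σ => ?_⟩
  -- `h = 2 g (-a)`
  have h1 : Kc hi (∏ k, rh π k ^ ((EE e k).val * (2 * g))) h := by
    refine kc_exp (rh0 hD) (fun k => ?_) hx
    push_cast
    rw [ZMod.natCast_zmod_val]
    cases k with
    | none =>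
      show (g : ZMod 3) = 2 * (2 * g)
      have h6 : (3 : ZMod 3) = 0 := by decide
      linear_combination (-(g : ZMod 3)) * h6
    | some j =>
      show (x j : ZMod 3) = e j * (2 * g)
      rw [hxv j]
      have h5 := hconst j
      have h6 : (3 : ZMod 3) = 0 := by decide
      linear_combination e j * h5 - e j * g * h6
  have h2 := kc_pow (rp0 hD _) hb (2 * g)
  have e1 : (∏ i, rh π i ^ (EE e i).val) ^ (2 * g) = ∏ j, rh π j ^ ((EE e j).val * (2 * g)) := by
    rw [← Finset.prod_pow]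
    refine Finset.prod_congr rfl fun i _ => ?_
    rw [← pow_mul]
  rw [e1] at h2
  have h3 := kc_uniq (rp0 hD _) h1 h2 σ
  rw [h3]
  push_cast
  have h6 : (3 : ZMod 3) = 0 := by decide
  linear_combination (-(g * a σ)) * h6

end Pool.Agent.E8helper23.CT3.SEL
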